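import Pool.Agent.Helper66.SC.Ops

universe u

namespace Pool.Agent.Helper66.SC

variable {C : Cls.{u}} {k : ℕ}

theorem ud_subset (hC : IsT C) : UD2 C (fun _ _ x y => x ⊆ y) := by
  unfold UD2
  refine (UD.ball hC (UF.var 0) (R := fun _ _ x v => x ∈ v 1) ?_).congr ?_
  · exact UD.memF (UF.var _) (UF.var _)
  · intro M A _ v _
    rfl

theorem test1 (hC : IsT C) : UD2 C (fun _ _ x y => ∀ z ∈ x, ∃ w ∈ z, ∀ t ∈ w, t ∈ y ∨ t = x) := by
  unfold UD2
  repeat' first
    | exact UF.var _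
    | apply UD.ball hC
    | apply UD.bex hC
    | apply UD.or
    | apply UD.memF
    | apply UD.eqF

end Pool.Agent.Helper66.SC
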